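import Pool.Agent.helper47.TK.SpecN

/-!
# Project tk, module KE5: the primes of degree one and the pole of the zeta function
-/

namespace Pool.Agent.TK

open Polynomial NumberField
open scoped NumberField Topology

noncomputable section

/-- the terms of the zeta function -/
def KE5_f (L : Type) [Field L] [NumberField L] (s : ℝ) (n : ℕ) : ℝ := (nid L n : ℝ) * (n : ℝ) ^ (-s)

theorem KE5_nonneg (L : Type) [Field L] [NumberField L] (s : ℝ) (n : ℕ) : 0 ≤ KE5_f L s n :=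
  mul_nonneg (Nat.cast_nonneg _) (Real.rpow_nonneg (Nat.cast_nonneg _) _)

theorem KE5_mul (h1 : KE1_stmt) (L : Type) [Field L] [NumberField L] (s : ℝ) (hs : 1 < s) {m n : ℕ}
    (hmn : m.Coprime n) : KE5_f L s (m * n) = KE5_f L s m * KE5_f L s n := by
  have hs0 : -s ≠ 0 := by linarith
  have h00 : KE5_f L s 0 = 0 := by
    rw [KE5_f, Nat.cast_zero, Real.zero_rpow hs0, mul_zero]
  rcases Nat.eq_zero_or_pos m with hm | hm
  · rw [hm, zero_mul, h00, zero_mul]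
  rcases Nat.eq_zero_or_pos n with hn | hn
  · rw [hn, mul_zero, h00, mul_zero]
  rw [KE5_f, KE5_f, KE5_f, (h1 L).2 m n hm hn hmn, Nat.cast_mul, Nat.cast_mul,
    Real.mul_rpow (Nat.cast_nonneg _) (Nat.cast_nonneg _)]
  ring

theorem KE5 (h1 : KE1_stmt) (h2 : KE2_stmt) (h3 : KE3_stmt) (h4 : KE4_stmt) : KE5_stmt := by
  intro L _ _
  obtain ⟨C, hC⟩ := h4 (Module.finrank ℚ L)
  obtain ⟨hsum, κ, hκ, hlim⟩ := h3 L
  -- the arithmetic function
  let a : ℕ → ℕ → ℕ := fun p e => if p.Prime then nid L (p ^ e) else if e = 0 then 1 else 0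
  have ha0 : ∀ p, a p 0 = 1 := by
    intro p
    show (if p.Prime then nid L (p ^ 0) else if 0 = 0 then 1 else 0) = 1
    by_cases hp : p.Prime
    · rw [if_pos hp, pow_zero, (h1 L).1]
    · rw [if_neg hp, if_pos rfl]
  have hae : ∀ p e, a p e ≤ (e + 1) ^ Module.finrank ℚ L := by
    intro p e
    show (if p.Prime then nid L (p ^ e) else if e = 0 then 1 else 0) ≤ _
    have hpos : 1 ≤ (e + 1) ^ Module.finrank ℚ L := Nat.one_le_pow _ _ (Nat.succ_pos e)
    split_ifs with hp he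
    · exact h2 L p e hp
    · exact hpos
    · exact Nat.zero_le _
  have hap : ∀ (p : Nat.Primes) (e : ℕ), a p e = nid L ((p : ℕ) ^ e) := by
    intro p e
    exact if_pos p.2
  -- the logarithm near the pole
  have hlog : Filter.Tendsto (fun s : ℝ => Real.log ((s - 1) * ∑' n : ℕ, (nid L n : ℝ) * (n : ℝ) ^ (-s)))
      (𝓝[>] 1) (𝓝 (Real.log κ)) := hlim.log hκ.ne'
  have hev : ∀ᶠ s in 𝓝[>] (1 : ℝ),
      |Real.log ((s - 1) * ∑' n : ℕ, (nid L n : ℝ) * (n : ℝ) ^ (-s)) - Real.log κ| < 1 := by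
    have := Metric.tendsto_nhds.1 hlog 1 one_pos
    simpa [Real.dist_eq] using this
  obtain ⟨u, hu, hus⟩ := mem_nhdsGT_iff_exists_Ioo_subset.1 hev
  have hu1 : (1 : ℝ) < u := hu
  refine ⟨C + (1 + |Real.log κ|), u - 1, by linarith, ?_⟩
  intro s hs hsu
  have hlogs := hus (show s ∈ Set.Ioo (1 : ℝ) u from ⟨hs, by linarith⟩)
  obtain ⟨c1, c2, c3, c4⟩ := hC a ha0 hae s hs
  have hfe : ∀ (p : Nat.Primes) (e : ℕ), KE5_f L s ((p : ℕ) ^ e) =
      (a p e : ℝ) * ((((p : ℕ) : ℝ) ^ (-s)) ^ e) := by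
    intro p e
    rw [KE5_f, hap, Nat.cast_pow, ← Real.rpow_natCast, ← Real.rpow_mul (Nat.cast_nonneg _),
      mul_comm (e : ℝ) (-s), Real.rpow_mul (Nat.cast_nonneg _), Real.rpow_natCast]
  have hp1 : (fun p : Nat.Primes => (a p 1 : ℝ) * ((p : ℕ) : ℝ) ^ (-s)) =
      fun p : Nat.Primes => (nid L p : ℝ) * ((p : ℕ) : ℝ) ^ (-s) := by
    funext p
    rw [hap, pow_one]
  rw [hp1] at c2
  refine ⟨c2, ?_⟩
  -- Euler product
  have hsn : Summable fun n => ‖KE5_f L s n‖ := by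
    have : (fun n => ‖KE5_f L s n‖) = fun n : ℕ => (nid L n : ℝ) * (n : ℝ) ^ (-s) := by
      funext n
      rw [Real.norm_of_nonneg (KE5_nonneg L s n), KE5_f]
    rw [this]
    exact hsum s hs
  have hf0 : KE5_f L s 0 = 0 := by
    rw [KE5_f, Nat.cast_zero, Real.zero_rpow (by linarith), mul_zero]
  have hf1 : KE5_f L s 1 = 1 := by
    rw [KE5_f, (h1 L).1, Nat.cast_one, Real.one_rpow, mul_one]
  have hprod := EulerProduct.eulerProduct_hasProd hf1 (fun {m n} hmn => KE5_mul h1 L s hs hmn) hsn hf0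
  have hfp : (fun p : Nat.Primes => ∑' e, KE5_f L s ((p : ℕ) ^ e)) =
      fun p : Nat.Primes => ∑' e : ℕ, (a p e : ℝ) * ((((p : ℕ) : ℝ) ^ (-s)) ^ e) := by
    funext p
    exact tsum_congr (fun e => hfe p e)
  rw [hfp] at hprod
  have hexp := Real.rexp_tsum_eq_tprod (fun p => lt_of_lt_of_le one_pos (c1 p)) c3
  rw [hprod.tprod_eq] at hexp
  have hζ : ∑' p : Nat.Primes, Real.log (∑' e : ℕ, (a p e : ℝ) * ((((p : ℕ) : ℝ) ^ (-s)) ^ e)) =
      Real.log (∑' n, KE5_f L s n) := by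
    rw [← hexp, Real.log_exp]
  have hZpos : 0 < ∑' n, KE5_f L s n := by
    rw [← hexp]
    exact Real.exp_pos _
  rw [hζ, hp1] at c4
  have hlog2 : Real.log ((s - 1) * ∑' n : ℕ, (nid L n : ℝ) * (n : ℝ) ^ (-s)) =
      Real.log (s - 1) + Real.log (∑' n, KE5_f L s n) := by
    exact Real.log_mul (by linarith) hZpos.ne'
  have hlogs' : |Real.log ((s - 1) * ∑' n : ℕ, (nid L n : ℝ) * (n : ℝ) ^ (-s)) - Real.log κ| < 1 := hlogs
  rw [hlog2] at hlogs'
  have e1 := abs_le.1 c4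
  have e2 := abs_lt.1 hlogs'
  have e3 := abs_le.1 (le_refl |Real.log κ|)
  rw [abs_le]
  constructor
  · linarith [e1.1, e1.2, e2.1, e2.2, e3.1, e3.2]
  · linarith [e1.1, e1.2, e2.1, e2.2, e3.1, e3.2]

end

end Pool.Agent.TK
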